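import Mathlib

/-!
# The three-dimensional special unitary group of an antidiagonal hermitian form

`K` is a field with an involution `star`; `SU3 K` is the group of the matrices of determinant `1`
which preserve the hermitian form `x₀ȳ₂ + x₁ȳ₁ + x₂ȳ₀`.
-/

open Matrix

namespace Pool.Agent.U319

variable (K : Type) [Field K] [StarRing K]

/-- The antidiagonal matrix. -/
def J : Matrix (Fin 3) (Fin 3) K := !![0, 0, 1; 0, 1, 0; 1, 0, 0]

variable {K} in
theorem SU3_mul {A B : SpecialLinearGroup (Fin 3) K} (hA : (A.1)ᴴ * J K * A.1 = J K)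
    (hB : (B.1)ᴴ * J K * B.1 = J K) : ((A * B).1)ᴴ * J K * (A * B).1 = J K := by
  change (A.1 * B.1)ᴴ * J K * (A.1 * B.1) = J K
  rw [conjTranspose_mul]
  calc (B.1)ᴴ * (A.1)ᴴ * J K * (A.1 * B.1) = (B.1)ᴴ * ((A.1)ᴴ * J K * A.1) * B.1 := by
        simp only [Matrix.mul_assoc]
    _ = J K := by rw [hA, hB]

theorem SU3_one : ((1 : SpecialLinearGroup (Fin 3) K).1)ᴴ * J K *
    (1 : SpecialLinearGroup (Fin 3) K).1 = J K := by
  change ((1 : Matrix (Fin 3) (Fin 3) K))ᴴ * J K * (1 : Matrix (Fin 3) (Fin 3) K) = J K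
  simp

variable {K} in
theorem SU3_inv {A : SpecialLinearGroup (Fin 3) K} (hA : (A.1)ᴴ * J K * A.1 = J K) :
    ((A⁻¹).1)ᴴ * J K * (A⁻¹).1 = J K := by
  have h1 : A.1 * (A⁻¹).1 = 1 := congrArg Subtype.val (mul_inv_cancel A)
  have h2 : ((A⁻¹).1)ᴴ * (A.1)ᴴ = 1 := by
    rw [← conjTranspose_mul, h1, conjTranspose_one]
  calc ((A⁻¹).1)ᴴ * J K * (A⁻¹).1 = ((A⁻¹).1)ᴴ * ((A.1)ᴴ * J K * A.1) * (A⁻¹).1 := by rw [hA]
    _ = (((A⁻¹).1)ᴴ * (A.1)ᴴ) * J K * (A.1 * (A⁻¹).1) := by simp only [Matrix.mul_assoc]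
    _ = J K := by rw [h1, h2, Matrix.one_mul, Matrix.mul_one]

/-- The special unitary group of the form with matrix `J`. -/
def SU3 : Subgroup (SpecialLinearGroup (Fin 3) K) where
  carrier := {A | (A.1)ᴴ * J K * A.1 = J K}
  mul_mem' := SU3_mul
  one_mem' := SU3_one K
  inv_mem' := SU3_inv

variable {K}

/-- Entries. -/
def en (A : SU3 K) (i j : Fin 3) : K := A.1.1 i j

theorem en_ext {A B : SU3 K} (h : ∀ i j, en A i j = en B i j) : A = B := by
  apply Subtype.ext
  apply Subtype.ext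
  ext i j
  exact h i j

theorem en_mul (A B : SU3 K) (i j : Fin 3) :
    en (A * B) i j = en A i 0 * en B 0 j + en A i 1 * en B 1 j + en A i 2 * en B 2 j := by
  change (A.1.1 * B.1.1) i j = _
  rw [Matrix.mul_apply, Fin.sum_univ_three]
  rfl

theorem en_one (i j : Fin 3) : en (1 : SU3 K) i j = if i = j then 1 else 0 := by
  change (1 : Matrix (Fin 3) (Fin 3) K) i j = _
  rw [Matrix.one_apply]

theorem col (A : SU3 K) (i j : Fin 3) :
    star (en A 0 i) * en A 2 j + star (en A 1 i) * en A 1 j + star (en A 2 i) * en A 0 j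
      = J K i j := by
  have h : (A.1.1)ᴴ * J K * A.1.1 = J K := A.2
  have h2 := congrFun (congrFun h i) j
  rw [← h2]
  simp only [Matrix.mul_apply, Fin.sum_univ_three, conjTranspose_apply, en, J]
  simp
  ring

/-- The inverse is `J Aᴴ J`. -/
theorem en_inv (A : SU3 K) (i j : Fin 3) : en A⁻¹ i j = star (en A (2 - j) (2 - i)) := by
  have h : (A.1.1)ᴴ * J K * A.1.1 = J K := A.2
  have hJ : J K * J K = 1 := by
    ext i j
    fin_cases i <;> fin_cases j <;> simp [J, Matrix.mul_apply, Fin.sum_univ_three]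
  have h1 : A.1.1 * (A⁻¹).1.1 = 1 := congrArg (fun x : SU3 K => x.1.1) (mul_inv_cancel A)
  have h2 : (A⁻¹).1.1 = J K * (A.1.1)ᴴ * J K := by
    calc (A⁻¹).1.1 = J K * J K * (A⁻¹).1.1 := by rw [hJ, Matrix.one_mul]
      _ = J K * ((A.1.1)ᴴ * J K * A.1.1) * (A⁻¹).1.1 := by rw [h]
      _ = J K * (A.1.1)ᴴ * J K * (A.1.1 * (A⁻¹).1.1) := by simp only [Matrix.mul_assoc]
      _ = J K * (A.1.1)ᴴ * J K := by rw [h1, Matrix.mul_one]
  change (A⁻¹).1.1 i j = _
  rw [h2]
  simp only [Matrix.mul_apply, Fin.sum_univ_three, conjTranspose_apply, en, J]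
  fin_cases i <;> fin_cases j <;> simp

theorem det_eq (A : SU3 K) :
    en A 0 0 * (en A 1 1 * en A 2 2 - en A 1 2 * en A 2 1)
      - en A 0 1 * (en A 1 0 * en A 2 2 - en A 1 2 * en A 2 0)
      + en A 0 2 * (en A 1 0 * en A 2 1 - en A 1 1 * en A 2 0) = 1 := by
  have h : A.1.1.det = 1 := A.1.2
  rw [det_fin_three] at h
  rw [← h]
  simp only [en]
  ring

/-- A matrix given by its entries is in the group. -/
theorem mem_of (M : Matrix (Fin 3) (Fin 3) K) (hd : M.det = 1)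
    (h : ∀ i j, star (M 0 i) * M 2 j + star (M 1 i) * M 1 j + star (M 2 i) * M 0 j = J K i j) :
    (⟨M, hd⟩ : SpecialLinearGroup (Fin 3) K) ∈ SU3 K := by
  change Mᴴ * J K * M = J K
  ext i j
  rw [← h i j]
  simp only [Matrix.mul_apply, Fin.sum_univ_three, conjTranspose_apply, J]
  simp
  ring

/-! ### Unipotent elements -/

/-- The parameter set of the unipotent group. -/
def NN (a b : K) : Prop := b + star b + a * star a = 0

/-- The matrix of the unipotent elements. -/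
def uM (a b : K) : Matrix (Fin 3) (Fin 3) K := !![1, -star a, b; 0, 1, a; 0, 0, 1]

/-- The unipotent elements. -/
def u (a b : K) (h : NN a b) : SU3 K :=
  ⟨⟨uM a b, by simp [uM, det_fin_three]⟩, by
    refine mem_of _ _ ?_
    intro i j
    unfold NN at h
    fin_cases i <;> fin_cases j <;> simp [uM, J]
    linear_combination h⟩

theorem en_u (a b : K) (h : NN a b) (i j : Fin 3) : en (u a b h) i j = uM a b i j := rfl

/-- The Weyl element. -/
def w : SU3 K :=
  ⟨⟨!![0, 0, 1; 0, -1, 0; 1, 0, 0], by simp [det_fin_three]⟩, by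
    refine mem_of _ _ ?_
    intro i j
    fin_cases i <;> fin_cases j <;> simp [J]⟩

theorem en_w (i j : Fin 3) :
    en (w : SU3 K) i j = (!![0, 0, 1; 0, -1, 0; 1, 0, 0] : Matrix (Fin 3) (Fin 3) K) i j := rfl

/-- The diagonal elements. -/
def hh (t : K) (ht : t ≠ 0) : SU3 K :=
  ⟨⟨!![t, 0, 0; 0, star t / t, 0; 0, 0, (star t)⁻¹], by
    have ht' : star t ≠ 0 := star_ne_zero.2 ht
    simp [det_fin_three]
    field_simp⟩, by
    have ht' : star t ≠ 0 := star_ne_zero.2 ht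
    refine mem_of _ _ ?_
    intro i j
    fin_cases i <;> fin_cases j <;> simp [J, star_div₀]
    all_goals field_simp⟩

theorem en_hh (t : K) (ht : t ≠ 0) (i j : Fin 3) :
    en (hh t ht) i j
      = (!![t, 0, 0; 0, star t / t, 0; 0, 0, (star t)⁻¹] : Matrix (Fin 3) (Fin 3) K) i j := rfl

end Pool.Agent.U319
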