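import Pool.Agent.U319.Simple

/-!
# The order
-/

open Matrix

namespace Pool.Agent.U319

variable {K : Type} [Field K] [StarRing K]

variable (K) in
/-- The nonzero isotropic vectors. -/
def Iso : Type := {v : K × K × K // v ≠ 0 ∧
  star v.1 * v.2.2 + star v.2.1 * v.2.1 + star v.2.2 * v.1 = 0}

variable (K) in
/-- The parameters of the unipotent elements. -/
def NNs : Type := {p : K × K // NN p.1 p.2}

/-- The first column. -/
def colv (A : SU3 K) : Iso K := ⟨(en A 0 0, en A 1 0, en A 2 0), by
  refine ⟨?_, iso_col A⟩
  intro h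
  have h0 : en A 0 0 = 0 := congrArg Prod.fst h
  have h1 : en A 1 0 = 0 := congrArg (fun v => v.2.1) h
  have h2 : en A 2 0 = 0 := congrArg (fun v => v.2.2) h
  have hd := det_eq A
  rw [h0, h1, h2] at hd
  simp at hd⟩

theorem colv_eq {A B : SU3 K} (h : colv A = colv B) (i : Fin 3) : en A i 0 = en B i 0 := by
  have h' := congrArg Subtype.val h
  fin_cases i
  · exact congrArg Prod.fst h'
  · exact congrArg (fun v => v.2.1) h'
  · exact congrArg (fun v => v.2.2) h'

theorem colv_surjective : Function.Surjective (colv (K := K)) := by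
  rintro ⟨⟨x, y, z⟩, hv, hi⟩
  simp only at hi
  by_cases hz : z = 0
  · subst hz
    simp only [mul_zero, star_zero, zero_mul, zero_add, add_zero] at hi
    have hy := norm_eq_zero hi
    subst hy
    have hx : x ≠ 0 := by
      rintro rfl
      exact hv rfl
    refine ⟨hh x hx, Subtype.ext ?_⟩
    change (en (hh x hx) 0 0, en (hh x hx) 1 0, en (hh x hx) 2 0) = (x, 0, 0)
    simp only [en_hh]
    simp
  · have hz' : star z ≠ 0 := star_ne_zero.2 hz
    have hN : NN (y / z) (x / z) := by
      unfold NN
      rw [star_div₀, star_div₀]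
      field_simp
      linear_combination hi
    refine ⟨u (y / z) (x / z) hN * (hh (star z)⁻¹ (inv_ne_zero hz') * w), Subtype.ext ?_⟩
    change (en _ 0 0, en _ 1 0, en _ 2 0) = (x, y, z)
    simp only [en_mul, en_hh, en_u, en_w]
    simp [uM]
    constructor
    · field_simp
    · field_simp

/-- The order of the group, as a product. -/
noncomputable def groupEquiv : SU3 K ≃ Iso K × NNs K where
  toFun A := (colv A, ⟨(en ((Function.surjInv colv_surjective (colv A))⁻¹ * A) 1 2,
    en ((Function.surjInv colv_surjective (colv A))⁻¹ * A) 0 2), by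
      have h := Function.surjInv_eq colv_surjective (colv A)
      have h1 : ∀ i, en ((Function.surjInv colv_surjective (colv A))⁻¹ * A) i 0
          = en (1 : SU3 K) i 0 := by
        intro i
        rw [← col_congr (colv_eq h), inv_mul_cancel]
      exact (stab (by rw [h1, en_one]; simp) (by rw [h1, en_one]; simp)).1⟩)
  invFun p := Function.surjInv colv_surjective p.1 * u p.2.1.1 p.2.1.2 p.2.2
  left_inv := by
    intro A
    simp only
    have h := Function.surjInv_eq colv_surjective (colv A)
    have h1 : ∀ i, en ((Function.surjInv colv_surjective (colv A))⁻¹ * A) i 0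
        = en (1 : SU3 K) i 0 := by
      intro i
      rw [← col_congr (colv_eq h), inv_mul_cancel]
    obtain ⟨h2, h3⟩ := stab (A := (Function.surjInv colv_surjective (colv A))⁻¹ * A)
      (by rw [h1, en_one]; simp) (by rw [h1, en_one]; simp)
    rw [← h3, mul_inv_cancel_left]
  right_inv := by
    rintro ⟨v, ⟨⟨a, b⟩, hab⟩⟩
    simp only
    have h0 : colv (Function.surjInv colv_surjective v * u a b hab) = v := by
      rw [← Function.surjInv_eq colv_surjective v]
      apply Subtype.ext
      change (en _ 0 0, en _ 1 0, en _ 2 0) = (en _ 0 0, en _ 1 0, en _ 2 0)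
      rw [Function.surjInv_eq colv_surjective v]
      simp only [en_mul, en_u]
      simp [uM]
    refine Prod.ext h0 (Subtype.ext ?_)
    simp only [h0, inv_mul_cancel_left]
    simp [en_u, uM]

/-- The isotropic vectors. -/
noncomputable def isoEquiv : Iso K ≃ Kˣ ⊕ Kˣ × NNs K := by
  classical
  exact
  { toFun := fun v =>
      if hz : v.1.2.2 = 0 then Sum.inl (Units.mk0 v.1.1 (by
        intro hx
        have hi := v.2.2
        rw [hz, hx] at hi
        simp only [mul_zero, star_zero, zero_add, add_zero] at hi
        have hy := norm_eq_zero hi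
        exact v.2.1 (Prod.ext hx (Prod.ext hy hz))))
      else Sum.inr (Units.mk0 v.1.2.2 hz, ⟨(v.1.2.1 / v.1.2.2, v.1.1 / v.1.2.2), by
        have hz' : star v.1.2.2 ≠ 0 := star_ne_zero.2 hz
        have hi := v.2.2
        unfold NN
        simp only
        rw [star_div₀, star_div₀]
        field_simp
        linear_combination hi⟩)
    invFun := fun x => match x with
      | Sum.inl y => ⟨((y : K), 0, 0), by
          refine ⟨fun h => y.ne_zero (congrArg Prod.fst h), ?_⟩
          simp⟩
      | Sum.inr (z, p) => ⟨((z : K) * p.1.2, (z : K) * p.1.1, (z : K)), by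
          refine ⟨fun h => z.ne_zero (congrArg (fun v => v.2.2) h), ?_⟩
          have h := p.2
          unfold NN at h
          simp only [star_mul]
          linear_combination ((z : K) * star (z : K)) * h⟩
    left_inv := by
      rintro ⟨⟨x, y, z⟩, hv, hi⟩
      by_cases hz : z = 0
      · subst hz
        have hi' := hi
        simp only [mul_zero, star_zero, zero_mul, zero_add, add_zero] at hi'
        have hy := norm_eq_zero hi'
        subst hy
        simp
      · simp only [hz, dite_false]
        apply Subtype.ext
        refine Prod.ext ?_ (Prod.ext ?_ ?_)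
        · simp; field_simp
        · simp; field_simp
        · simp
    right_inv := by
      rintro (y | ⟨z, ⟨⟨a, b⟩, hab⟩⟩)
      · simp
      · have hz := z.ne_zero
        simp only [hz, dite_false]
        congr 1
        refine Prod.ext ?_ (Subtype.ext (Prod.ext ?_ ?_))
        · simp
        · simp
        · simp }

/-- The unipotent parameters. -/
def nnEquiv (h2 : (2 : K) ≠ 0) : NNs K ≃ K × {b : K // b + star b = 0} where
  toFun p := (p.1.1, ⟨p.1.2 + p.1.1 * star p.1.1 / 2, by
    have h := p.2
    unfold NN at h
    have hs2 : star (2 : K) = 2 := star_ofNat 2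
    simp only [star_add, star_div₀, star_mul, star_star, hs2]
    field_simp
    linear_combination 2 * h⟩)
  invFun p := ⟨(p.1, p.2.1 - p.1 * star p.1 / 2), by
    have h := p.2.2
    have hs2 : star (2 : K) = 2 := star_ofNat 2
    unfold NN
    simp only [star_sub, star_div₀, star_mul, star_star, hs2]
    field_simp
    linear_combination 2 * h⟩
  left_inv := by
    rintro ⟨⟨a, b⟩, h⟩
    simp
  right_inv := by
    rintro ⟨a, ⟨b, h⟩⟩
    simp

theorem card_SU3 (h2 : (2 : K) ≠ 0) [Finite K] {q : ℕ} (hq : 0 < q) (hK : Nat.card K = q ^ 2)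
    (hb : Nat.card {b : K // b + star b = 0} = q) :
    Nat.card (SU3 K) = q ^ 3 * (q ^ 2 - 1) * (q ^ 3 + 1) := by
  have hN : Nat.card (NNs K) = q ^ 3 := by
    rw [Nat.card_congr (nnEquiv h2), Nat.card_prod, hK, hb]
    ring
  have : Finite (NNs K) := Nat.finite_of_card_ne_zero (by rw [hN]; positivity)
  have hI : Nat.card (Iso K) = (q ^ 2 - 1) * (q ^ 3 + 1) := by
    rw [Nat.card_congr isoEquiv, Nat.card_sum, Nat.card_prod, hN, Nat.card_units, hK]
    ring
  rw [Nat.card_congr groupEquiv, Nat.card_prod, hN, hI]
  ring

end Pool.Agent.U319
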