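import Pool.Agent.U319.Card

/-!
# The field with 361 elements
-/

open Matrix

namespace Pool.Agent.U319

instance : Fact (Nat.Prime 19) := ⟨by norm_num⟩

theorem no_root : ∀ r : ZMod 19, r ^ 2 ≠ -1 + 0 * r := by decide

instance : Fact (∀ r : ZMod 19, r ^ 2 ≠ -1 + 0 * r) := ⟨no_root⟩

/-- The quadratic algebra. -/
abbrev Q361 : Type := QuadraticAlgebra (ZMod 19) (-1) 0

/-- The field with `361` elements. -/
def F361 : Type := QuadraticAlgebra (ZMod 19) (-1) 0

noncomputable instance : Field F361 := inferInstanceAs (Field (QuadraticAlgebra (ZMod 19) (-1) 0))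

instance : StarRing F361 := inferInstanceAs (StarRing (QuadraticAlgebra (ZMod 19) (-1) 0))

/-- The group `SU_3(19)`. -/
def SU319 : Type := SU3 F361

noncomputable instance : Group SU319 := inferInstanceAs (Group (SU3 F361))

theorem card_Q361 : Nat.card Q361 = 19 ^ 2 := by
  rw [Nat.card_congr (QuadraticAlgebra.equivProd (-1 : ZMod 19) 0), Nat.card_prod, Nat.card_zmod]
  norm_num

theorem two_ne : (2 : Q361) ≠ 0 := by
  intro h
  have h1 := congrArg QuadraticAlgebra.re h
  rw [QuadraticAlgebra.re_ofNat, QuadraticAlgebra.re_zero] at h1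
  revert h1
  decide

theorem three_ne : (3 : Q361) ≠ 0 := by
  intro h
  have h1 := congrArg QuadraticAlgebra.re h
  rw [QuadraticAlgebra.re_ofNat, QuadraticAlgebra.re_zero] at h1
  revert h1
  decide

theorem zmod_two_mul {x : ZMod 19} (h : 2 * x = 0) : x = 0 := by
  revert x
  decide

theorem norm_surj (c : Q361) (h : star c = c) : ∃ a : Q361, a * star a = c := by
  obtain ⟨x, y⟩ := c
  have h1 := congrArg QuadraticAlgebra.im h
  simp at h1
  have hy : y = 0 := zmod_two_mul (by linear_combination -h1)
  subst hy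
  have key : ∀ x : ZMod 19, ∃ a b : ZMod 19, a * a + b * b = x := by decide
  obtain ⟨a, b, hab⟩ := key x
  refine ⟨⟨a, b⟩, ?_⟩
  ext
  · simp
    linear_combination hab
  · simp
    ring

theorem cube_norm (c : Q361) (h : c ^ 3 = 1) (h' : c * star c = 1) : c = 1 := by
  obtain ⟨x, y⟩ := c
  have h1 := congrArg QuadraticAlgebra.re h
  have h2 := congrArg QuadraticAlgebra.im h
  have h3 := congrArg QuadraticAlgebra.re h'
  simp only [pow_succ, pow_zero, one_mul] at h1 h2
  simp at h1 h2 h3
  rw [QuadraticAlgebra.re_one] at h1 h3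
  rw [QuadraticAlgebra.im_one] at h2
  have key : ∀ x y : ZMod 19, (x * x - y * y) * x - (x * y + y * x) * y = 1 →
      (x * x - y * y) * y + (x * y + y * x) * x = 0 → x * x + y * y = 1 → x = 1 ∧ y = 0 := by
    decide
  obtain ⟨hx, hy⟩ := key x y (by linear_combination h1) (by linear_combination h2)
    (by linear_combination h3)
  subst hx hy
  rfl

theorem card_skew : Nat.card {b : Q361 // b + star b = 0} = 19 := by
  have e : {b : Q361 // b + star b = 0} ≃ ZMod 19 :=
    { toFun := fun b => b.1.im
      invFun := fun y => ⟨⟨0, y⟩, by ext <;> simp⟩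
      left_inv := by
        rintro ⟨⟨x, y⟩, h⟩
        have h1 := congrArg QuadraticAlgebra.re h
        simp at h1
        have hx : x = 0 := zmod_two_mul (by linear_combination h1)
        subst hx
        rfl
      right_inv := fun y => rfl }
  rw [Nat.card_congr e, Nat.card_zmod]

theorem finite_F361 : Finite F361 :=
  Nat.finite_of_card_ne_zero (by
    have h : Nat.card F361 = 19 ^ 2 := card_Q361
    rw [h]; norm_num)

theorem isSimple_SU319 : IsSimpleGroup SU319 :=
  isSimple (K := F361) two_ne three_ne norm_surj cube_norm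

theorem card_SU319 : Nat.card SU319 = 2 ^ 5 * 3 ^ 2 * 5 ^ 2 * 7 ^ 3 * 19 ^ 3 := by
  have hf := finite_F361
  have h : Nat.card (SU3 F361) = _ :=
    card_SU3 (K := F361) two_ne (q := 19) (by norm_num) card_Q361 card_skew
  have h' : Nat.card SU319 = Nat.card (SU3 F361) := rfl
  rw [h', h]
  norm_num

end Pool.Agent.U319
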