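import Pool.Agent.U319.Stab

/-!
# Simplicity
-/

open Matrix

open scoped commutatorElement

namespace Pool.Agent.U319

variable {K : Type} [Field K] [StarRing K]

/-- Every unipotent element is a commutator. -/
theorem u_mem_commutator (h2 : (2 : K) ≠ 0) (h3 : (3 : K) ≠ 0) {a b : K} (h : NN a b) :
    u a b h ∈ commutator (SU3 K) := by
  have hs2 : star (2 : K) = 2 := star_ofNat 2
  have hs3 : star (3 : K) = 3 := star_ofNat 3
  have h' : NN a ((2 * b + star b) / 3) := by
    unfold NN at *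
    simp only [star_div₀, star_add, star_mul, star_star, hs2, hs3]
    field_simp
    linear_combination 3 * h
  have key : hh 2 h2 * u a ((2 * b + star b) / 3) h'
      = u a b h * u a ((2 * b + star b) / 3) h' * hh 2 h2 := by
    rw [u_mul]
    apply en_ext
    intro i j
    rw [en_mul, en_mul]
    simp only [en_u, en_hh]
    unfold NN at h
    fin_cases i <;> fin_cases j <;> simp [uM]
    all_goals field_simp
    all_goals try ring1
    all_goals linear_combination (3 : K) * h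
  have h4 : u a b h = ⁅hh 2 h2, u a ((2 * b + star b) / 3) h'⁆ := by
    rw [commutatorElement_def, key]
    group
  rw [h4]
  exact Subgroup.commutator_mem_commutator (Subgroup.mem_top _) (Subgroup.mem_top _)

/-! ### First columns -/

theorem col_congr {A B : SU3 K} (h : ∀ i, en A i 0 = en B i 0) (X : SU3 K) :
    ∀ i, en (X * A) i 0 = en (X * B) i 0 := by
  intro i
  rw [en_mul, en_mul, h 0, h 1, h 2]

theorem col_smul {A B : SU3 K} {c : K} (h : ∀ i, en A i 0 = c * en B i 0) (X : SU3 K) :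
    ∀ i, en (X * A) i 0 = c * en (X * B) i 0 := by
  intro i
  rw [en_mul, en_mul, h 0, h 1, h 2]
  ring

theorem w_mul_w : (w : SU3 K) * w = 1 := by
  apply en_ext
  intro i j
  rw [en_mul, en_one]
  simp only [en_w]
  fin_cases i <;> fin_cases j <;> simp

theorem w_inv : (w : SU3 K)⁻¹ = w := inv_eq_of_mul_eq_one_left w_mul_w

theorem nn_of_col {A : SU3 K} (h : en A 2 0 ≠ 0) :
    NN (en A 1 0 / en A 2 0) (en A 0 0 / en A 2 0) := by
  have h' : star (en A 2 0) ≠ 0 := star_ne_zero.2 h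
  have h1 := iso_col A
  unfold NN
  rw [star_div₀, star_div₀]
  field_simp
  linear_combination h1

theorem col_u_inv_mul {A : SU3 K} (h : en A 2 0 ≠ 0) :
    en ((u _ _ (nn_of_col h))⁻¹ * A) 0 0 = 0 ∧ en ((u _ _ (nn_of_col h))⁻¹ * A) 1 0 = 0 ∧
      en ((u _ _ (nn_of_col h))⁻¹ * A) 2 0 = en A 2 0 := by
  have h' : star (en A 2 0) ≠ 0 := star_ne_zero.2 h
  have h1 := iso_col A
  rw [u_inv, en_mul, en_mul, en_mul]
  simp only [en_u]
  refine ⟨?_, ?_, ?_⟩
  · simp [uM, star_div₀]
    field_simp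
    linear_combination h1
  · simp [uM]
    field_simp
    ring
  · simp [uM]

theorem exists_unipotent_mul {A B : SU3 K} (hA : en A 2 0 ≠ 0) (h : en A 2 0 = en B 2 0) :
    ∃ (a b x y : K) (h1 : NN a b) (h2 : NN x y),
      ∀ i, en (u a b h1 * (u x y h2 * A)) i 0 = en B i 0 := by
  have hB : en B 2 0 ≠ 0 := by rwa [← h]
  refine ⟨_, _, _, _, nn_of_col hB, (nn_of_col hA).mk_inv, ?_⟩
  rw [← u_inv (nn_of_col hA)]
  obtain ⟨a0, a1, a2⟩ := col_u_inv_mul hA
  obtain ⟨b0, b1, b2⟩ := col_u_inv_mul hB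
  have hc : ∀ i, en ((u _ _ (nn_of_col hA))⁻¹ * A) i 0 = en ((u _ _ (nn_of_col hB))⁻¹ * B) i 0 := by
    intro i
    fin_cases i
    · exact a0.trans b0.symm
    · exact a1.trans b1.symm
    · exact a2.trans (h.trans b2.symm)
  intro i
  rw [col_congr hc, mul_inv_cancel_left]

section main

variable (h2 : (2 : K) ≠ 0) (h3 : (3 : K) ≠ 0) (hn : ∀ c : K, star c = c → ∃ a, a * star a = c)

include h2 h3 hn

theorem trans_big (g : SU3 K) (hg : en g 2 0 ≠ 0) :
    ∃ d ∈ commutator (SU3 K), ∀ i, en d i 0 = en g i 0 := by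
  obtain ⟨a, ha⟩ := hn (-(en g 2 0 + star (en g 2 0))) (by
    simp only [star_neg, star_add, star_star]; ring)
  have hN : NN a (en g 2 0) := by
    unfold NN
    rw [ha]; ring
  have hd1 : w * u a (en g 2 0) hN * w ∈ commutator (SU3 K) := by
    have := (inferInstance : (commutator (SU3 K)).Normal).conj_mem _
      (u_mem_commutator h2 h3 hN) w
    rwa [w_inv] at this
  have hcol : en (w * u a (en g 2 0) hN * w) 2 0 = en g 2 0 := by
    rw [en_mul, en_mul, en_mul, en_mul]
    simp only [en_u, en_w]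
    simp [uM]
  obtain ⟨p, q, x, y, hpq, hxy, hh⟩ := exists_unipotent_mul (A := w * u a (en g 2 0) hN * w)
    (B := g) (by rw [hcol]; exact hg) hcol
  exact ⟨_, mul_mem (u_mem_commutator h2 h3 hpq) (mul_mem (u_mem_commutator h2 h3 hxy) hd1), hh⟩

theorem trans_all (g : SU3 K) :
    ∃ d ∈ commutator (SU3 K), ∀ i, en d i 0 = en g i 0 := by
  by_cases hg : en g 2 0 = 0
  · obtain ⟨hg1, -, hg0, -⟩ := upper hg
    obtain ⟨d1, hd1, hd1'⟩ := trans_big h2 h3 hn w (by rw [en_w]; simp)
    obtain ⟨d2, hd2, hd2'⟩ := trans_big h2 h3 hn (w * g) (by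
      rw [en_mul]
      simp only [en_w]
      simp [hg0])
    refine ⟨w * d2 * w * d1, ?_, ?_⟩
    · have := (inferInstance : (commutator (SU3 K)).Normal).conj_mem _ hd2 w
      rw [w_inv] at this
      exact mul_mem this hd1
    · intro i
      rw [col_congr hd1', mul_assoc, w_mul_w, mul_one, col_congr hd2', ← mul_assoc, w_mul_w,
        one_mul]
  · exact trans_big h2 h3 hn g hg

theorem perfect : commutator (SU3 K) = ⊤ := by
  rw [eq_top_iff]
  intro g _
  obtain ⟨d, hd, hd'⟩ := trans_all h2 h3 hn g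
  have hc : ∀ i, en (d⁻¹ * g) i 0 = en (1 : SU3 K) i 0 := by
    intro i
    rw [← col_congr hd', inv_mul_cancel]
  obtain ⟨h, hh⟩ := stab (A := d⁻¹ * g) (by rw [hc, en_one]; simp) (by rw [hc, en_one]; simp)
  have h4 : d⁻¹ * g ∈ commutator (SU3 K) := by
    rw [hh]
    exact u_mem_commutator h2 h3 h
  have h5 := mul_mem hd h4
  rwa [mul_inv_cancel_left] at h5

end main

/-! ### Normal subgroups -/

theorem nn_half (h2 : (2 : K) ≠ 0) : NN (1 : K) (-1 / 2) := by
  unfold NN
  have hs2 : star (2 : K) = 2 := star_ofNat 2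
  simp only [star_div₀, star_neg, star_one, hs2]
  field_simp
  ring

/-- A normal subgroup inside the line stabilizer is trivial. -/
theorem normal_le_BB (h2 : (2 : K) ≠ 0) (hl : ∀ c : K, c ^ 3 = 1 → c * star c = 1 → c = 1)
    {N : Subgroup (SU3 K)} [hN : N.Normal] (hle : N ≤ BB) : N = ⊥ := by
  rw [eq_bot_iff]
  intro n hn
  have hn0 := hle hn
  obtain ⟨h10, h21, h00, h22⟩ := upper (mem_BB.1 hn0)
  have h20 : en n 2 0 = 0 := mem_BB.1 hn0
  have hw : w * n * w ∈ BB := by
    have := hN.conj_mem n hn w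
    rw [w_inv] at this
    exact hle this
  obtain ⟨k10, k21, -⟩ := upper (mem_BB.1 hw)
  have k20 := mem_BB.1 hw
  rw [en_mul, en_mul, en_mul, en_mul] at k10 k21 k20
  simp only [en_w] at k10 k21 k20
  simp at k10 k21 k20
  -- `n` is diagonal
  have hb := nn_half h2
  have hx : (u 1 (-1 / 2) hb * w)⁻¹ * n * (u 1 (-1 / 2) hb * w) ∈ BB := by
    have := hN.conj_mem n hn (u 1 (-1 / 2) hb * w)⁻¹
    rw [inv_inv] at this
    exact hle this
  obtain ⟨l10, -⟩ := upper (mem_BB.1 hx)
  have l20 := mem_BB.1 hx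
  rw [_root_.mul_inv_rev, w_inv, u_inv] at l10 l20
  simp only [en_mul, en_u, en_w] at l10 l20
  simp [uM, h10, h20, h21, k10, k20, k21, star_div₀] at l10 l20
  have m2 : en n 2 2 = en n 1 1 := by linear_combination l10
  have m0 : en n 0 0 = en n 1 1 := by
    rw [m2] at l20
    field_simp at l20
    linear_combination -l20
  have hd := det_eq n
  rw [m2, m0, h10, h20, h21, k10, k20, k21] at hd
  have hc := col n 1 1
  rw [h21, k21] at hc
  simp [J] at hc
  have h1 : en n 1 1 = 1 := by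
    apply hl
    · linear_combination hd
    · rw [mul_comm]; exact hc
  rw [Subgroup.mem_bot]
  apply en_ext
  intro i j
  rw [en_one]
  fin_cases i <;> fin_cases j <;> simp [m0, m2, h1, h10, h20, h21, k10, k20, k21]

/-- The group is simple. -/
theorem isSimple (h2 : (2 : K) ≠ 0) (h3 : (3 : K) ≠ 0)
    (hn : ∀ c : K, star c = c → ∃ a, a * star a = c)
    (hl : ∀ c : K, c ^ 3 = 1 → c * star c = 1 → c = 1) : IsSimpleGroup (SU3 K) := by
  have hnt : Nontrivial (SU3 K) := by
    refine ⟨⟨w, 1, fun h => ?_⟩⟩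
    have h1 := congrArg (fun A => en A 0 0) h
    simp only [en_w, en_one] at h1
    simp at h1
  refine { eq_bot_or_eq_top_of_normal := fun N hN => ?_ }
  by_cases hle : N ≤ BB
  · exact Or.inl (normal_le_BB h2 hl hle)
  right
  obtain ⟨n, hnN, hnB⟩ := SetLike.not_le_iff_exists.1 hle
  have hn20 : en n 2 0 ≠ 0 := hnB
  -- every element is in `N * BB`
  have key : ∀ g : SU3 K, ∃ m ∈ N, m⁻¹ * g ∈ (BB : Subgroup (SU3 K)) := by
    intro g
    by_cases hg : en g 2 0 = 0
    · exact ⟨1, one_mem _, by rw [inv_one, one_mul]; exact hg⟩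
    refine ⟨(u _ _ (nn_of_col hg) * (u _ _ (nn_of_col hn20))⁻¹) * n *
      (u _ _ (nn_of_col hg) * (u _ _ (nn_of_col hn20))⁻¹)⁻¹, hN.conj_mem n hnN _, ?_⟩
    obtain ⟨a0, a1, a2⟩ := col_u_inv_mul hn20
    obtain ⟨b0, b1, b2⟩ := col_u_inv_mul hg
    -- `U * n` and `g` are proportional in the first column
    set ug := u _ _ (nn_of_col hg) with hug
    set un := u _ _ (nn_of_col hn20) with hun
    rw [mem_BB]
    have hV : ∀ (X : SU3 K) (i : Fin 3), en (X * (ug * un⁻¹)⁻¹) i 0 = en X i 0 := by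
      intro X i
      have h1 : (ug * un⁻¹)⁻¹ = un * ug⁻¹ := by group
      rw [h1, hun, hug, u_inv (nn_of_col hg), u_mul, en_mul]
      simp only [en_u]
      simp [uM]
    have hcol : ∀ i, en g i 0 = en g 2 0 / en n 2 0 * en (ug * un⁻¹ * n) i 0 := by
      have h1 : ∀ i, en (ug⁻¹ * g) i 0 = en g 2 0 / en n 2 0 * en (un⁻¹ * n) i 0 := by
        intro i
        fin_cases i
        · exact b0.trans (by rw [show en (un⁻¹ * n) ((fun i => i) ⟨0, by norm_num⟩) 0 = 0 from a0, mul_zero])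
        · exact b1.trans (by rw [show en (un⁻¹ * n) ((fun i => i) ⟨1, by norm_num⟩) 0 = 0 from a1, mul_zero])
        · exact b2.trans (by
            rw [show en (un⁻¹ * n) ((fun i => i) ⟨2, by norm_num⟩) 0 = en n 2 0 from a2,
              div_mul_cancel₀ _ hn20])
      have h2 := col_smul h1 ug
      intro i
      have h3 := h2 i
      rwa [mul_inv_cancel_left, ← mul_assoc] at h3
    have hcol2 : ∀ i, en g i 0 = en g 2 0 / en n 2 0 *
        en (ug * un⁻¹ * n * (ug * un⁻¹)⁻¹) i 0 := by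
      intro i
      rw [hV, ← hcol i]
    have h3 := col_smul hcol2 (ug * un⁻¹ * n * (ug * un⁻¹)⁻¹)⁻¹ 2
    rw [h3, inv_mul_cancel, en_one]
    simp
  have hs : Function.Surjective
      ((QuotientGroup.mk' N).comp (BB : Subgroup (SU3 K)).subtype) := by
    intro x
    obtain ⟨g, rfl⟩ := QuotientGroup.mk'_surjective N x
    obtain ⟨m, hm, hb⟩ := key g
    refine ⟨⟨m⁻¹ * g, hb⟩, ?_⟩
    change QuotientGroup.mk' N (m⁻¹ * g) = QuotientGroup.mk' N g
    rw [map_mul]
    have : QuotientGroup.mk' N m⁻¹ = 1 := by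
      rw [← MonoidHom.mem_ker, QuotientGroup.ker_mk']
      exact inv_mem hm
    rw [this, one_mul]
  have hsol : Group.IsSolvable (SU3 K ⧸ N) := Group.isSolvable_of_surjective hs
  have hper : commutator (SU3 K ⧸ N) = ⊤ := by
    have h1 := Subgroup.map_commutator (⊤ : Subgroup (SU3 K)) ⊤ (QuotientGroup.mk' N)
    have h4 : Subgroup.map (QuotientGroup.mk' N) ⊤ = ⊤ :=
      Subgroup.map_top_of_surjective _ (QuotientGroup.mk'_surjective N)
    rw [h4] at h1
    have h5 : ⁅(⊤ : Subgroup (SU3 K)), ⊤⁆ = ⊤ := perfect h2 h3 hn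
    rw [h5, h4] at h1
    exact h1.symm
  by_contra hN'
  have hnt' : Nontrivial (SU3 K ⧸ N) := by
    rw [← not_subsingleton_iff_nontrivial]
    intro hss
    exact hN' (QuotientGroup.subgroup_eq_top_of_subsingleton N hss)
  exact (Group.IsSolvable.commutator_lt_top_of_nontrivial (SU3 K ⧸ N)).ne hper

end Pool.Agent.U319
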