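import Pool.Agent.U319.Basic

/-!
# Stabilizers
-/

open Matrix

namespace Pool.Agent.U319

variable {K : Type} [Field K] [StarRing K]

/-- The norm form is anisotropic. -/
theorem norm_eq_zero {a : K} (h : star a * a = 0) : a = 0 := by
  rcases mul_eq_zero.1 h with h | h
  · exact star_eq_zero.1 h
  · exact h

/-- The first column is isotropic. -/
theorem iso_col (A : SU3 K) :
    star (en A 0 0) * en A 2 0 + star (en A 1 0) * en A 1 0 + star (en A 2 0) * en A 0 0 = 0 := by
  have h := col A 0 0
  simpa [J] using h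

/-- The stabilizer of the line spanned by the first basis vector is upper triangular. -/
theorem upper {A : SU3 K} (h : en A 2 0 = 0) :
    en A 1 0 = 0 ∧ en A 2 1 = 0 ∧ en A 0 0 ≠ 0 ∧ star (en A 0 0) * en A 2 2 = 1 := by
  have h1 := iso_col A
  rw [h] at h1
  simp only [mul_zero, star_zero, zero_mul, zero_add, add_zero] at h1
  have h10 := norm_eq_zero h1
  have h01 := col A 0 1
  have h02 := col A 0 2
  rw [h10, h] at h01 h02
  simp [J] at h01 h02
  have h00 : en A 0 0 ≠ 0 := by
    intro h0
    rw [h0] at h02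
    simp at h02
  refine ⟨h10, ?_, h00, h02⟩
  rcases h01 with h01 | h01
  · exact absurd h01 h00
  · exact h01

/-- The stabilizer of the first basis vector consists of the unipotent elements. -/
theorem stab {A : SU3 K} (h0 : en A 0 0 = 1) (h2 : en A 2 0 = 0) :
    ∃ h : NN (en A 1 2) (en A 0 2), A = u (en A 1 2) (en A 0 2) h := by
  obtain ⟨h10, h21, -, h22⟩ := upper h2
  rw [h0, star_one, one_mul] at h22
  have hd := det_eq A
  rw [h0, h10, h21, h22, h2] at hd
  have h11 : en A 1 1 = 1 := by linear_combination hd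
  have h12 := col A 1 2
  rw [h22, h11, h21] at h12
  simp [J] at h12
  have h22' := col A 2 2
  rw [h22] at h22'
  simp [J] at h22'
  have hN : NN (en A 1 2) (en A 0 2) := by
    unfold NN
    linear_combination h22'
  refine ⟨hN, en_ext ?_⟩
  have h01 : en A 0 1 = - star (en A 1 2) := by
    have := congrArg star h12
    simp only [star_add, star_star, star_zero] at this
    linear_combination this
  intro i j
  rw [en_u]
  fin_cases i <;> fin_cases j <;> simp [uM, h0, h10, h21, h22, h11, h01, h2]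

theorem NN.mk_mul {a b x y : K} (h : NN a b) (h' : NN x y) :
    NN (a + x) (b + y - star a * x) := by
  unfold NN at *
  simp only [star_add, star_sub, star_mul, star_star]
  linear_combination h + h'

theorem u_mul {a b x y : K} (h : NN a b) (h' : NN x y) :
    u a b h * u x y h' = u (a + x) (b + y - star a * x) (h.mk_mul h') := by
  apply en_ext
  intro i j
  rw [en_mul]
  simp only [en_u]
  fin_cases i <;> fin_cases j <;> simp [uM]
  all_goals ring

theorem NN.mk_inv {a b : K} (h : NN a b) : NN (-a) (star b) := by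
  unfold NN at *
  simp only [star_neg, star_star]
  linear_combination h

theorem u_congr {a b x y : K} (h : NN a b) (h' : NN x y) (h1 : a = x) (h2 : b = y) :
    u a b h = u x y h' := by
  subst h1; subst h2; rfl

theorem u_inv {a b : K} (h : NN a b) : (u a b h)⁻¹ = u (-a) (star b) h.mk_inv := by
  rw [inv_eq_iff_mul_eq_one, u_mul]
  apply en_ext
  intro i j
  rw [en_u, en_one]
  unfold NN at h
  have h1 : b + star b - star a * -a = 0 := by linear_combination h
  rw [h1]
  fin_cases i <;> fin_cases j <;> simp [uM]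

/-! ### Normal subgroups and the line stabilizer -/

/-- The stabilizer of the line. -/
def BB : Subgroup (SU3 K) where
  carrier := {A | en A 2 0 = 0}
  mul_mem' := by
    intro A B hA hB
    have hA' : en A 2 0 = 0 := hA
    have hB' : en B 2 0 = 0 := hB
    obtain ⟨h10, -⟩ := upper hB'
    change en (A * B) 2 0 = 0
    rw [en_mul, hA', h10, hB']
    ring
  one_mem' := by
    change en (1 : SU3 K) 2 0 = 0
    rw [en_one]
    simp
  inv_mem' := by
    intro A hA
    have hA' : en A 2 0 = 0 := hA
    change en A⁻¹ 2 0 = 0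
    rw [en_inv]
    have : (2 - 0 : Fin 3) = 2 := rfl
    have h' : (2 - 2 : Fin 3) = 0 := rfl
    rw [this, h', hA', star_zero]

theorem mem_BB {A : SU3 K} : A ∈ (BB : Subgroup (SU3 K)) ↔ en A 2 0 = 0 := Iff.rfl

/-- The upper left entry, as a homomorphism. -/
def phi : (BB : Subgroup (SU3 K)) →* K where
  toFun A := en A.1 0 0
  map_one' := by
    change en (1 : SU3 K) 0 0 = 1
    rw [en_one]; simp
  map_mul' A B := by
    obtain ⟨h10, -⟩ := upper (mem_BB.1 B.2)
    change en (A.1 * B.1) 0 0 = _
    rw [en_mul, h10, mem_BB.1 B.2]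
    ring

theorem phi_apply (A : (BB : Subgroup (SU3 K))) : phi A = en A.1 0 0 := rfl

theorem mem_ker_phi {A : (BB : Subgroup (SU3 K))} :
    A ∈ (phi.toHomUnits : (BB : Subgroup (SU3 K)) →* Kˣ).ker ↔ en A.1 0 0 = 1 := by
  rw [MonoidHom.mem_ker, ← phi_apply, ← Units.val_inj]
  rfl

/-- The entry `12`, as a homomorphism on the unipotent group. -/
def psi : (phi.toHomUnits : (BB : Subgroup (SU3 K)) →* Kˣ).ker →* Multiplicative K where
  toFun A := Multiplicative.ofAdd (en A.1.1 1 2)
  map_one' := by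
    change Multiplicative.ofAdd (en (1 : SU3 K) 1 2) = 1
    rw [en_one]; simp
  map_mul' A B := by
    obtain ⟨hA, hA'⟩ := stab (mem_ker_phi.1 A.2) (mem_BB.1 A.1.2)
    obtain ⟨hB, hB'⟩ := stab (mem_ker_phi.1 B.2) (mem_BB.1 B.1.2)
    change Multiplicative.ofAdd (en (A.1.1 * B.1.1) 1 2) = _
    rw [← ofAdd_add]
    congr 1
    rw [en_mul]
    have a0 : en A.1.1 1 0 = 0 := (upper (mem_BB.1 A.1.2)).1
    have a1 : en A.1.1 1 1 = 1 := by rw [hA', en_u]; simp [uM]
    have b1 : en B.1.1 2 2 = 1 := by rw [hB', en_u]; simp [uM]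
    rw [a0, a1, b1]
    ring

theorem mem_ker_psi {A : (phi.toHomUnits : (BB : Subgroup (SU3 K)) →* Kˣ).ker} :
    A ∈ (psi (K := K)).ker ↔ en A.1.1 1 2 = 0 := by
  rw [MonoidHom.mem_ker]
  change Multiplicative.ofAdd (en A.1.1 1 2) = 1 ↔ _
  rw [ofAdd_eq_one]

instance solvable_ker_psi : Group.IsSolvable (psi (K := K)).ker := by
  apply Group.isSolvable_of_comm
  intro A B
  obtain ⟨hA, hA'⟩ := stab (mem_ker_phi.1 A.1.2) (mem_BB.1 A.1.1.2)
  obtain ⟨hB, hB'⟩ := stab (mem_ker_phi.1 B.1.2) (mem_BB.1 B.1.1.2)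
  apply Subtype.ext
  apply Subtype.ext
  apply Subtype.ext
  change A.1.1.1 * B.1.1.1 = B.1.1.1 * A.1.1.1
  have a0 := mem_ker_psi.1 A.2
  have b0 := mem_ker_psi.1 B.2
  rw [hA', hB', u_mul, u_mul]
  apply u_congr
  · ring
  · rw [a0, b0]
    ring

instance solvable_ker_phi :
    Group.IsSolvable (phi.toHomUnits : (BB : Subgroup (SU3 K)) →* Kˣ).ker := by
  have h : (psi (K := K)).ker ≤ ((psi (K := K)).ker.subtype).range := by
    rw [Subgroup.range_subtype]
  exact Group.isSolvable_of_ker_le_range ((psi (K := K)).ker.subtype) psi h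

instance solvable_BB : Group.IsSolvable (BB : Subgroup (SU3 K)) := by
  have h : (phi.toHomUnits : (BB : Subgroup (SU3 K)) →* Kˣ).ker
      ≤ ((phi.toHomUnits : (BB : Subgroup (SU3 K)) →* Kˣ).ker.subtype).range := by
    rw [Subgroup.range_subtype]
  exact Group.isSolvable_of_ker_le_range
    ((phi.toHomUnits : (BB : Subgroup (SU3 K)) →* Kˣ).ker.subtype) phi.toHomUnits h

end Pool.Agent.U319
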